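import Pool.Agent.helper78.EQ.Spec

set_option autoImplicit false

open Complex MeasureTheory Set Metric

namespace Pool.Agent.EQ

open Pool.Agent.helper6.LD

theorem helper24_exp_int : Integrable (fun x : ℝ => Real.exp (-|x|)) := by
  refine Integrable.mono' (integrable_inv_one_add_sq.const_mul 2) ?_ ?_
  · exact (Real.continuous_exp.comp continuous_abs.neg).aestronglyMeasurable
  · refine Filter.Eventually.of_forall fun x => ?_
    rw [Real.norm_eq_abs, abs_of_pos (Real.exp_pos _), Real.exp_neg]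
    have h1 : 1 + |x| + |x| ^ 2 / 2 ≤ Real.exp |x| := Real.quadratic_le_exp_of_nonneg (abs_nonneg x)
    have h2 : (1 + x ^ 2) ≤ 2 * Real.exp |x| := by
      have h3 : |x| ^ 2 = x ^ 2 := sq_abs x
      nlinarith [abs_nonneg x]
    have h4 : 0 < 1 + x ^ 2 := by positivity
    have h5 : 0 < Real.exp |x| := Real.exp_pos _
    rw [← div_eq_mul_inv, inv_le_iff_one_le_mul₀ h5, div_mul_eq_mul_div, le_div_iff₀ h4]
    linarith

theorem helper24_gam_cont : Continuous (fun u : ℝ => Complex.Gamma ((2 : ℂ) + u * I)) := by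
  rw [continuous_iff_continuousAt]
  intro u
  have h1 : ContinuousAt Complex.Gamma ((2 : ℂ) + u * I) := by
    refine (Complex.differentiableAt_Gamma _ fun m => ?_).continuousAt
    intro h
    have := congrArg Complex.re h
    simp at this
    have h2 : (0 : ℝ) ≤ m := Nat.cast_nonneg m
    linarith
  have h2 : ContinuousAt (fun u : ℝ => (2 : ℂ) + u * I) u := by fun_prop
  exact ContinuousAt.comp (f := fun u : ℝ => (2 : ℂ) + u * I) (g := Complex.Gamma) h1 h2

theorem helper24_gam_int (hG : GAM_stmt) :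
    Integrable (fun u : ℝ => Complex.Gamma ((2 : ℂ) + u * I)) := by
  obtain ⟨C, hC, h⟩ := hG 1 one_pos
  refine Integrable.mono' (helper24_exp_int.const_mul C) helper24_gam_cont.aestronglyMeasurable ?_
  refine Filter.Eventually.of_forall fun u => ?_
  have := h 2 u (by norm_num) (by norm_num)
  simpa using this

theorem helper24_mellin (y : ℝ) :
    mellin (fun x : ℝ => ((Real.exp (-x) : ℝ) : ℂ)) ((2 : ℂ) + y * I) =
      Complex.Gamma ((2 : ℂ) + y * I) := by
  rw [Complex.Gamma_eq_integral (by simp), Complex.GammaIntegral_eq_mellin]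

theorem helper24_inv (hG : GAM_stmt) (x : ℝ) (hx : 0 < x) :
    ((Real.exp (-x) : ℝ) : ℂ) = (1 / (2 * (Real.pi : ℂ))) *
      ∫ u : ℝ, (x : ℂ) ^ (-((2 : ℂ) + u * I)) * Complex.Gamma ((2 : ℂ) + u * I) := by
  have h := mellinInv_mellin_eq (E := ℂ) 2 (fun x : ℝ => ((Real.exp (-x) : ℝ) : ℂ)) hx ?_ ?_ ?_
  · rw [← h, mellinInv]
    have h2 : ∀ y : ℝ, (x : ℂ) ^ (-(((2 : ℝ) : ℂ) + (y : ℂ) * I)) •
        mellin (fun x : ℝ => ((Real.exp (-x) : ℝ) : ℂ)) (((2 : ℝ) : ℂ) + (y : ℂ) * I) =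
        (x : ℂ) ^ (-((2 : ℂ) + y * I)) * Complex.Gamma ((2 : ℂ) + y * I) := by
      intro y
      have h3 : (((2 : ℝ) : ℂ)) = (2 : ℂ) := by norm_num
      rw [h3, helper24_mellin, smul_eq_mul]
    simp_rw [h2]
    rw [Complex.real_smul]
    push_cast
    rfl
  · have := Complex.GammaIntegral_convergent (s := ((2 : ℝ) : ℂ)) (by simp)
    refine this.congr_fun (fun t _ => ?_) measurableSet_Ioi
    simp only [smul_eq_mul]
    rw [mul_comm]
  · have h3 : (((2 : ℝ) : ℂ)) = (2 : ℂ) := by norm_num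
    unfold Complex.VerticalIntegrable
    rw [h3]
    simp_rw [helper24_mellin]
    exact helper24_gam_int hG
  · exact (Complex.continuous_ofReal.comp (Real.continuous_exp.comp continuous_neg)).continuousAt

theorem helper24_cpow (N u : ℝ) (n : ℕ) (hN : 0 < N) (hn : n ≠ 0) :
    (((n : ℝ) / N : ℝ) : ℂ) ^ (-((2 : ℂ) + u * I)) =
      (N : ℂ) ^ ((2 : ℂ) + u * I) * (n : ℂ) ^ (-((2 : ℂ) + u * I)) := by
  have hn' : (0 : ℝ) < n := Nat.cast_pos.mpr (Nat.pos_of_ne_zero hn)
  rw [div_eq_mul_inv, Complex.ofReal_mul,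
    Complex.mul_cpow_ofReal_nonneg hn'.le (inv_nonneg.mpr hN.le), mul_comm]
  congr 1
  rw [Complex.ofReal_inv, Complex.inv_cpow, Complex.cpow_neg, inv_inv]
  rw [Complex.arg_ofReal_of_nonneg hN.le]
  exact Real.pi_pos.ne

theorem CAH (hG : GAM_stmt) : CAH_stmt := by
  intro a N t hN ha hS
  have hGi := helper24_gam_int hG
  set F : ℕ → ℝ → ℂ := fun n u => Complex.Gamma ((2 : ℂ) + u * I) *
    (N : ℂ) ^ ((2 : ℂ) + u * I) * (a n * (n : ℂ) ^ (-((2 : ℂ) + (t + u) * I))) with hF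
  have hNc : (N : ℂ) ≠ 0 := Complex.ofReal_ne_zero.mpr hN.ne'
  have hnorm : ∀ n u, ‖F n u‖ = (N ^ (2 : ℝ) * (‖a n‖ * (n : ℝ) ^ (-(2 : ℝ)))) *
      ‖Complex.Gamma ((2 : ℂ) + u * I)‖ := by
    intro n u
    simp only [hF, norm_mul]
    rcases eq_or_ne n 0 with rfl | hn
    · simp [ha]
    · have hn' : (0 : ℝ) < n := Nat.cast_pos.mpr (Nat.pos_of_ne_zero hn)
      have h1 : ‖(N : ℂ) ^ ((2 : ℂ) + u * I)‖ = N ^ (2 : ℝ) := by
        rw [Complex.norm_cpow_eq_rpow_re_of_pos hN]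
        simp
      have h2 : ‖(n : ℂ) ^ (-((2 : ℂ) + (t + u) * I))‖ = (n : ℝ) ^ (-(2 : ℝ)) := by
        rw [← Complex.ofReal_natCast, Complex.norm_cpow_eq_rpow_re_of_pos hn']
        simp
      rw [h1, h2]
      ring
  have hcont : ∀ n, Continuous (F n) := by
    intro n
    rcases eq_or_ne n 0 with rfl | hn
    · have : F 0 = fun _ => 0 := by
        funext u
        simp [hF, ha]
      rw [this]
      exact continuous_const
    · have hn' : (n : ℂ) ≠ 0 := Nat.cast_ne_zero.mpr hn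
      refine (helper24_gam_cont.mul ?_).mul (continuous_const.mul ?_)
      · exact Continuous.const_cpow (by fun_prop) (Or.inl hNc)
      · exact Continuous.const_cpow (by fun_prop) (Or.inl hn')
  have hint : ∀ n, Integrable (F n) := by
    intro n
    refine Integrable.mono' (hGi.norm.const_mul (N ^ (2 : ℝ) * (‖a n‖ * (n : ℝ) ^ (-(2 : ℝ)))))
      (hcont n).aestronglyMeasurable ?_
    exact Filter.Eventually.of_forall fun u => (hnorm n u).le
  have hsum : Summable fun n => ∫ u, ‖F n u‖ := by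
    have h1 : ∀ n, ∫ u, ‖F n u‖ = (‖a n‖ * (n : ℝ) ^ (-(2 : ℝ))) *
        (N ^ (2 : ℝ) * ∫ u : ℝ, ‖Complex.Gamma ((2 : ℂ) + u * I)‖) := by
      intro n
      simp_rw [hnorm]
      rw [integral_const_mul]
      ring
    simp_rw [h1]
    exact hS.mul_right _
  have key := integral_tsum_of_summable_integral_norm hint hsum
  have hR : ∫ u : ℝ, Complex.Gamma ((2 : ℂ) + u * I) *
      (N : ℂ) ^ ((2 : ℂ) + u * I) * Ds a ((2 : ℂ) + (t + u) * I) = ∫ u : ℝ, ∑' n, F n u := by
    congr 1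
    funext u
    rw [Ds, ← tsum_mul_left]
  rw [hR, ← key, S, ← tsum_mul_left]
  congr 1
  funext n
  rcases eq_or_ne n 0 with rfl | hn
  · simp [hF, ha]
  · have hn' : (0 : ℝ) < n := Nat.cast_pos.mpr (Nat.pos_of_ne_zero hn)
    have hnc : (n : ℂ) ≠ 0 := Nat.cast_ne_zero.mpr hn
    rw [helper24_inv hG ((n : ℝ) / N) (div_pos hn' hN)]
    have h3 : ∀ u : ℝ, F n u = (a n * (n : ℂ) ^ (-((t : ℂ) * I))) *
        ((((n : ℝ) / N : ℝ) : ℂ) ^ (-((2 : ℂ) + u * I)) * Complex.Gamma ((2 : ℂ) + u * I)) := by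
      intro u
      simp only [hF]
      rw [helper24_cpow N u n hN hn]
      have h4 : (n : ℂ) ^ (-((2 : ℂ) + (t + u) * I)) =
          (n : ℂ) ^ (-((t : ℂ) * I)) * (n : ℂ) ^ (-((2 : ℂ) + u * I)) := by
        rw [← Complex.cpow_add _ _ hnc]
        congr 1
        ring
      rw [h4]
      ring
    simp_rw [h3]
    rw [integral_const_mul]
    ring

end Pool.Agent.EQ
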