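import Pool.Agent.helper24.EQ.ZTR

set_option autoImplicit false

open Complex MeasureTheory Set Metric

namespace Pool.Agent.EQ

open Pool.Agent.helper6.LD

theorem DHF : DHF_stmt := by
  constructor
  · intro h ε hε
    obtain ⟨C, T₀, hC, hD⟩ := h ε hε
    set M : ℝ := max T₀ 1 with hM
    refine ⟨2 * C + zc (helper24_box 0 M), by positivity, fun σ T H hσ hσ1 hT hH hTH => ?_⟩
    rw [Real.rpow_one] at hTH
    have hX1 : 1 ≤ (T + H + 2) ^ ε := Real.one_le_rpow (by linarith) hε.le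
    have hH1 : 1 ≤ H ^ (2 * (1 - σ)) := Real.one_le_rpow hH (by linarith)
    have hK : (0 : ℝ) ≤ zc (helper24_box 0 M) := Nat.cast_nonneg _
    have hP : 1 ≤ (T + H + 2) ^ ε * H ^ (2 * (1 - σ)) := by nlinarith
    rcases le_or_gt M (T + H) with h1 | h1
    · have h2 : Zer ε σ T H ≤
          (zc {ρ : ℂ | σ ≤ ρ.re ∧ 0 < ρ.im ∧ ρ.im ≤ T + H} : ℝ) := by
        have h3 : zc {ρ : ℂ | σ ≤ ρ.re ∧ 0 < ρ.im ∧ ρ.im ≤ T + H} =
            zc ({ρ : ℂ | σ ≤ ρ.re ∧ 0 < ρ.im ∧ ρ.im ≤ T + H} ∩ helper24_box 0 (T + H)) :=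
          h30_zc_congr fun ρ hρ => ⟨fun hs => ⟨hs, by linarith [hs.1], (h97_re_lt hρ).le,
            hs.2.1.le, hs.2.2⟩, fun hs => hs.1⟩
        rw [Zer, h3]
        refine Nat.cast_le.mpr (helper24_zc_le ((helper24_box_bdd _ _).subset
          Set.inter_subset_right) ?_)
        rintro ρ hρ ⟨h4, h5, h6⟩
        exact ⟨⟨h4, by linarith, h6⟩, by linarith, (h97_re_lt hρ).le, by linarith, h6⟩
      have h3 := hD (T + H) σ ((le_max_left _ _).trans h1) hσ hσ1
      have hpos : 0 < T + H := by linarith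
      rw [Real.rpow_add hpos] at h3
      have h4 : (T + H) ^ ε ≤ (T + H + 2) ^ ε :=
        Real.rpow_le_rpow hpos.le (by linarith) hε.le
      have h5 : (T + H) ^ (2 * (1 - σ)) ≤ 2 * H ^ (2 * (1 - σ)) := by
        have h6 : (T + H) ^ (2 * (1 - σ)) ≤ (2 * H) ^ (2 * (1 - σ)) :=
          Real.rpow_le_rpow hpos.le (by linarith) (by linarith)
        rw [Real.mul_rpow (by norm_num) (by linarith)] at h6
        have h7 : (2 : ℝ) ^ (2 * (1 - σ)) ≤ 2 := by
          have := Real.rpow_le_rpow_of_exponent_le (x := (2 : ℝ)) (by norm_num)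
            (show 2 * (1 - σ) ≤ 1 by linarith)
          rwa [Real.rpow_one] at this
        have h8 : 0 ≤ H ^ (2 * (1 - σ)) := by linarith
        nlinarith
      have h6 : (T + H) ^ (2 * (1 - σ)) * (T + H) ^ ε ≤
          2 * H ^ (2 * (1 - σ)) * (T + H + 2) ^ ε := by
        refine mul_le_mul h5 h4 (Real.rpow_nonneg hpos.le _) (by linarith)
      calc Zer ε σ T H ≤ C * ((T + H) ^ (2 * (1 - σ)) * (T + H) ^ ε) := h2.trans h3
        _ ≤ C * (2 * H ^ (2 * (1 - σ)) * (T + H + 2) ^ ε) := mul_le_mul_of_nonneg_left h6 hC.le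
        _ = 2 * C * ((T + H + 2) ^ ε * H ^ (2 * (1 - σ))) := by ring
        _ ≤ 2 * C * ((T + H + 2) ^ ε * H ^ (2 * (1 - σ))) +
            zc (helper24_box 0 M) * ((T + H + 2) ^ ε * H ^ (2 * (1 - σ))) := by
              have := mul_nonneg hK (by linarith : 0 ≤ (T + H + 2) ^ ε * H ^ (2 * (1 - σ)))
              linarith
        _ = (2 * C + zc (helper24_box 0 M)) * (T + H + 2) ^ ε * H ^ (2 * (1 - σ)) := by ring
    · have h2 : Zer ε σ T H ≤ (zc (helper24_box 0 M) : ℝ) := by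
        rw [Zer]
        refine Nat.cast_le.mpr (helper24_zc_le (helper24_box_bdd _ _) ?_)
        rintro ρ hρ ⟨h4, h5, h6⟩
        exact ⟨by linarith, (h97_re_lt hρ).le, by linarith, by linarith⟩
      have h3 : (zc (helper24_box 0 M) : ℝ) ≤ (2 * C + zc (helper24_box 0 M)) *
          ((T + H + 2) ^ ε * H ^ (2 * (1 - σ))) := by
        have h4 : 0 ≤ 2 * C + (zc (helper24_box 0 M) : ℝ) := by positivity
        nlinarith
      calc Zer ε σ T H ≤ _ := h2.trans h3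
        _ = _ := by ring
  · intro h ε hε
    obtain ⟨C, hC, hB⟩ := h ε hε
    refine ⟨C * 3 ^ ε, 1, by positivity, fun T σ hT hσ hσ1 => ?_⟩
    have h1 := hB σ 0 T hσ hσ1 le_rfl hT (by rw [Real.rpow_one]; linarith)
    rw [Zer] at h1
    simp only [zero_add] at h1
    have hpos : 0 < T := by linarith
    have h2 : (T + 2) ^ ε ≤ 3 ^ ε * T ^ ε := by
      rw [← Real.mul_rpow (by norm_num) hpos.le]
      exact Real.rpow_le_rpow (by linarith) (by linarith) hε.le
    have h3 : 0 ≤ T ^ (2 * (1 - σ)) := Real.rpow_nonneg hpos.le _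
    calc (zc {ρ : ℂ | σ ≤ ρ.re ∧ 0 < ρ.im ∧ ρ.im ≤ T} : ℝ) ≤
          C * (T + 2) ^ ε * T ^ (2 * (1 - σ)) := h1
      _ ≤ C * (3 ^ ε * T ^ ε) * T ^ (2 * (1 - σ)) :=
          mul_le_mul_of_nonneg_right (mul_le_mul_of_nonneg_left h2 hC.le) h3
      _ = C * 3 ^ ε * T ^ (2 * (1 - σ) + ε) := by
          rw [Real.rpow_add hpos]
          ring

end Pool.Agent.EQ
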