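import Pool.Agent.helper78.EQ.Spec
import Pool.Agent.helper30.LD.J
import Pool.Agent.helper97.LD.F0

set_option autoImplicit false

open Complex MeasureTheory Set Metric

namespace Pool.Agent.EQ

open Pool.Agent.helper6.LD

/-- the box `[1/2, 1] × [a, b]` -/
def helper24_box (a b : ℝ) : Set ℂ := {ρ : ℂ | 1 / 2 ≤ ρ.re ∧ ρ.re ≤ 1 ∧ a ≤ ρ.im ∧ ρ.im ≤ b}

theorem helper24_box_bdd (a b : ℝ) : Bornology.IsBounded (helper24_box a b) := by
  have h : Bornology.IsBounded ((Set.Icc (1 / 2 : ℝ) 1) ×ℂ (Set.Icc a b)) :=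
    (Metric.isBounded_Icc _ _).reProdIm (Metric.isBounded_Icc _ _)
  refine h.subset ?_
  rintro ρ ⟨h1, h2, h3, h4⟩
  rw [Complex.mem_reProdIm]
  exact ⟨⟨h1, h2⟩, ⟨h3, h4⟩⟩

theorem helper24_zc_le {S S' : Set ℂ} (hb : Bornology.IsBounded S')
    (h : ∀ ρ, riemannZeta ρ = 0 → ρ ∈ S → ρ ∈ S') : zc S ≤ zc S' := by
  have h1 : zc S = zc (S ∩ S') :=
    h30_zc_congr fun ρ hρ => ⟨fun hs => ⟨hs, h ρ hρ hs⟩, fun hs => hs.1⟩
  rw [h1]
  exact zc_mono Set.inter_subset_right hb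

theorem helper24_box_window (t : ℝ) :
    zc (helper24_box t (t + 1)) = zc {ρ : ℂ | 1 / 2 ≤ ρ.re ∧ t ≤ ρ.im ∧ ρ.im ≤ t + 1} :=
  h30_zc_congr fun _ hρ => ⟨fun hs => ⟨hs.1, hs.2.2.1, hs.2.2.2⟩,
    fun hs => ⟨hs.1, (h97_re_lt hρ).le, hs.2.1, hs.2.2⟩⟩

theorem ZTR : ZTR_stmt := by
  obtain ⟨C₁, hC₁, hw⟩ := zc_window
  refine ⟨zc (helper24_box 0 1) + 4 * C₁, by positivity, fun T H hT hH => ?_⟩
  set T' : ℝ := max T 1 with hT'
  have hT1 : 1 ≤ T' := le_max_right _ _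
  have hTT : T ≤ T' := le_max_left _ _
  have hTle : T' ≤ T + 1 := max_le (by linarith) (by linarith)
  set n : ℕ := ⌈H⌉₊ with hn
  have hn1 : H ≤ n := Nat.le_ceil H
  have hn2 : (n : ℝ) < H + 1 := Nat.ceil_lt_add_one (by linarith)
  set U : Set ℂ := ⋃ j ∈ Finset.range n, helper24_box (T' + j) (T' + j + 1) with hU
  have hbU : Bornology.IsBounded U := by
    rw [hU, Bornology.isBounded_biUnion_finset]
    exact fun j _ => helper24_box_bdd _ _
  have h1 : zc {ρ : ℂ | 1 / 2 ≤ ρ.re ∧ T ≤ ρ.im ∧ ρ.im ≤ T + H} ≤ zc (helper24_box 0 1 ∪ U) := by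
    refine helper24_zc_le ((helper24_box_bdd 0 1).union hbU) ?_
    rintro ρ hρ ⟨h2, h3, h4⟩
    have h5 := (h97_re_lt hρ).le
    by_cases h6 : ρ.im ≤ 1
    · exact Or.inl ⟨h2, h5, by linarith, h6⟩
    · right
      push Not at h6
      have h7 : T' ≤ ρ.im := max_le h3 h6.le
      rw [hU, Set.mem_iUnion₂]
      rcases lt_or_ge (ρ.im - T') n with h8 | h8
      · refine ⟨⌊ρ.im - T'⌋₊, ?_, h2, h5, ?_, ?_⟩
        · rw [Finset.mem_range]
          exact (Nat.floor_lt (by linarith)).mpr h8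
        · have := Nat.floor_le (show 0 ≤ ρ.im - T' by linarith)
          linarith
        · have := Nat.lt_floor_add_one (ρ.im - T')
          linarith
      · have hnpos : 1 ≤ n := by
          have : (0 : ℝ) < n := by linarith
          exact_mod_cast this
        refine ⟨n - 1, ?_, h2, h5, ?_, ?_⟩
        · rw [Finset.mem_range]
          omega
        · rw [Nat.cast_sub hnpos, Nat.cast_one]
          linarith
        · rw [Nat.cast_sub hnpos, Nat.cast_one]
          linarith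
  have h2 : zc (helper24_box 0 1 ∪ U) ≤ zc (helper24_box 0 1) +
      ∑ j ∈ Finset.range n, zc (helper24_box (T' + j) (T' + j + 1)) := by
    refine (h30_zc_union_le (helper24_box_bdd 0 1) hbU).trans ?_
    exact Nat.add_le_add_left (zc_union_le _ _ fun j _ => helper24_box_bdd _ _) _
  have hX : 3 ≤ T + H + 2 := by linarith
  have hlog : 1 ≤ Real.log (T + H + 2) := by
    rw [Real.le_log_iff_exp_le (by linarith)]
    exact (Real.exp_one_lt_d9.le.trans (by norm_num)).trans hX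
  have hlog2 : Real.log (T + H + 3) ≤ 2 * Real.log (T + H + 2) := by
    have h3 : Real.log (T + H + 3) ≤ Real.log ((T + H + 2) ^ 2) :=
      Real.log_le_log (by linarith) (by nlinarith)
    rw [Real.log_pow] at h3
    exact_mod_cast h3
  have h3 : ∀ j ∈ Finset.range n, (zc (helper24_box (T' + j) (T' + j + 1)) : ℝ) ≤
      C₁ * (2 * Real.log (T + H + 2)) := by
    intro j hj
    rw [Finset.mem_range] at hj
    rw [helper24_box_window]
    have hj' : (j : ℝ) + 1 ≤ n := by exact_mod_cast hj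
    have hj0 : (0 : ℝ) ≤ j := Nat.cast_nonneg j
    refine (hw (T' + j) (by linarith)).trans ?_
    refine mul_le_mul_of_nonneg_left ?_ hC₁.le
    exact (Real.log_le_log (by linarith) (by linarith)).trans hlog2
  have h4 : (zc {ρ : ℂ | 1 / 2 ≤ ρ.re ∧ T ≤ ρ.im ∧ ρ.im ≤ T + H} : ℝ) ≤
      zc (helper24_box 0 1) + ∑ j ∈ Finset.range n,
        (zc (helper24_box (T' + j) (T' + j + 1)) : ℝ) := by
    exact_mod_cast h1.trans h2
  have h5 := Finset.sum_le_sum h3
  rw [Finset.sum_const, Finset.card_range, nsmul_eq_mul] at h5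
  have h6 : (n : ℝ) * (C₁ * (2 * Real.log (T + H + 2))) ≤
      4 * C₁ * H * Real.log (T + H + 2) := by
    have h7 : (n : ℝ) ≤ 2 * H := by linarith
    have h8 : 0 ≤ C₁ * (2 * Real.log (T + H + 2)) := by positivity
    calc (n : ℝ) * (C₁ * (2 * Real.log (T + H + 2))) ≤ 2 * H * (C₁ * (2 * Real.log (T + H + 2))) :=
          mul_le_mul_of_nonneg_right h7 h8
      _ = 4 * C₁ * H * Real.log (T + H + 2) := by ring
  have h7 : (zc (helper24_box 0 1) : ℝ) ≤ zc (helper24_box 0 1) * H * Real.log (T + H + 2) := by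
    have h8 : (0 : ℝ) ≤ zc (helper24_box 0 1) := Nat.cast_nonneg _
    have h9 : 1 ≤ H * Real.log (T + H + 2) := by nlinarith
    nlinarith
  calc (zc {ρ : ℂ | 1 / 2 ≤ ρ.re ∧ T ≤ ρ.im ∧ ρ.im ≤ T + H} : ℝ) ≤
      zc (helper24_box 0 1) * H * Real.log (T + H + 2) + 4 * C₁ * H * Real.log (T + H + 2) := by
        linarith
    _ = (zc (helper24_box 0 1) + 4 * C₁) * H * Real.log (T + H + 2) := by ring

end Pool.Agent.EQ
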